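import Pool.Agent.Run7.h894.LK.Stm

/-!
# Project LK (helper894), part FIN: assembly of the final theorem
-/

set_option autoImplicit false

open MeasureTheory Set Filter Topology

namespace Pool.Agent.Run7.H894.LK

open Pool.Agent.R117.RL

theorem shell_card' {d g l : ℕ} (hd : 0 < d) {P : Fin g → E d → ℝ} (hS : Shell l P) : 0 < g := by
  rcases Nat.eq_zero_or_pos g with h | h
  · subst h
    exfalso
    have h1 := hS.square (EuclideanSpace.single ⟨0, hd⟩ 1)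
    simp at h1
  · exact h

theorem ae_fst_ne {k m : ℕ} (hk : 0 < k) : ∀ᵐ p : Sp k m, p.1 ≠ 0 := by
  have : Nonempty (Fin k) := ⟨⟨0, hk⟩⟩
  rw [ae_iff]
  have e : {p : Sp k m | ¬ p.1 ≠ 0} = ({0} : Set (E k)) ×ˢ (univ : Set (Fin m → ℝ)) := by
    ext p
    simp
  rw [e, Measure.volume_eq_prod, Measure.prod_prod]
  simp

theorem t_FIN (hK : S_LOGK) (hP : S_POL) (hY : S_CYL) (hC : S_CSD) : S_FINAL := by
  intro k m hk Λ g N hg P u hS hU
  have hk0 : 0 < k := by omega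
  have hkr : (6 : ℝ) ≤ k := by exact_mod_cast hk
  have hm0 : (0 : ℝ) ≤ m := Nat.cast_nonneg m
  have hs0 : 0 < sg k := sg_pos hk0
  set s := sg k with hs
  have hcast : ((k + m : ℕ) : ℝ) = (k : ℝ) + m := by push_cast; ring
  have hd0 : (0 : ℝ) < (k : ℝ) + m := by linarith
  rw [hcast]
  have hex : ∀ l, ∃ φ : Fin (N l) → (Fin (m + 1) → ℝ) → ℂ, l ∈ Λ → (∀ n, FnY (φ n)) ∧
    (∀ a b, ∫ z, (Real.exp (2 * z 0) : ℂ) * (star (φ a z) * φ b z) =
      if a = b then (1 : ℂ) else 0) ∧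
    (∀ p : Sp k m, p.1 ≠ 0 → ∑ n, ∑ j, ‖u l n j p‖ ^ 2 =
      (g l : ℝ) / sg k / ‖p.1‖ ^ (k - 2) *
        ∑ n, ‖φ n (Fin.cons (Real.log ‖p.1‖) p.2)‖ ^ 2) ∧
    (g l : ℝ) * ∑ n, ∫ z, (‖pdc 0 (φ n) z‖ ^ 2 + nu k l ^ 2 * ‖φ n z‖ ^ 2 +
      Real.exp (2 * z 0) * ∑ j : Fin m, ‖pdc j.succ (φ n) z‖ ^ 2) ≤
      ∑ n, ∑ j, ∫ p, gradS (u l n j) p := by
    intro l
    by_cases hl : l ∈ Λ
    · obtain ⟨φ, h1⟩ := hP k m (g l) l (N l) hk (shell_card' hk0 (hS l hl)) (P l) (hS l hl)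
        (u l) (hU l hl)
      exact ⟨φ, fun _ => h1⟩
    · exact ⟨fun _ _ => 0, fun h => absurd h hl⟩
  choose φ hφ using hex
  obtain ⟨hI, hle⟩ := hK k hk m Λ g N (fun l hl => ⟨shell_card' hk0 (hS l hl), hg l hl⟩) φ
    (fun l hl => (hφ l hl).1) (fun l hl => (hφ l hl).2.1)
  set D : (Fin (m + 1) → ℝ) → ℝ := fun z => ∑ l ∈ Λ, (g l : ℝ) * ∑ n, ‖φ l n z‖ ^ 2 with hD
  have hD0 : ∀ z, 0 ≤ D z := fun z => Finset.sum_nonneg fun l _ =>
    mul_nonneg (Nat.cast_nonneg _) (Finset.sum_nonneg fun n _ => sq_nonneg _)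
  have hDc : Continuous D := by
    rw [hD]
    refine continuous_finsetSum _ fun l hl => continuous_const.mul
      (continuous_finsetSum _ fun n _ => ?_)
    exact (((hφ l hl).1 n).smooth.continuous.norm).pow 2
  set p : ℝ := 1 + 2 / ((k : ℝ) + m) with hp
  have hp0 : 0 < p := by rw [hp]; positivity
  set hfun : (Fin (m + 1) → ℝ) → ℝ :=
    fun z => (D z / s / Real.exp (((k - 2 : ℕ) : ℝ) * z 0)) ^ p with hhfun
  have hmeas : Measurable hfun := by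
    rw [hhfun]
    refine Measurable.pow_const ?_ p
    exact (hDc.measurable.div_const s).div
      (by fun_prop)
  have hρ : ∀ x : Sp k m, x.1 ≠ 0 →
      (∑ l ∈ Λ, ∑ n, ∑ j, ‖u l n j x‖ ^ 2) ^ p =
        hfun (Fin.cons (Real.log ‖x.1‖) x.2) := by
    intro x hx
    have hx0 : 0 < ‖x.1‖ := norm_pos_iff.2 hx
    rw [hhfun]
    simp only
    congr 1
    have e0 : (Fin.cons (Real.log ‖x.1‖) x.2 : Fin (m + 1) → ℝ) 0 = Real.log ‖x.1‖ := rfl
    rw [e0, Real.exp_nat_mul, Real.exp_log hx0, hD]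
    simp only
    rw [Finset.sum_div, Finset.sum_div]
    refine Finset.sum_congr rfl fun l hl => ?_
    rw [(hφ l hl).2.2.1 x hx]
    ring
  have hae : (fun x : Sp k m => (∑ l ∈ Λ, ∑ n, ∑ j, ‖u l n j x‖ ^ 2) ^ p) =ᵐ[volume]
      fun x => hfun (Fin.cons (Real.log ‖x.1‖) x.2) := by
    filter_upwards [ae_fst_ne (m := m) hk0] with x hx using hρ x hx
  have hexp : ∀ z : Fin (m + 1) → ℝ, Real.exp ((k : ℝ) * z 0) * hfun z =
      (s⁻¹) ^ p * (Real.exp (ex k m * z 0) * D z ^ p) := by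
    intro z
    rw [hhfun]
    simp only
    rw [div_eq_mul_inv (D z) s, mul_comm (D z),
      Real.div_rpow (mul_nonneg (inv_nonneg.2 hs0.le) (hD0 z)) (by positivity),
      Real.mul_rpow (inv_nonneg.2 hs0.le) (hD0 z), ← Real.exp_mul,
      div_eq_mul_inv, ← Real.exp_neg]
    have e : Real.exp ((k : ℝ) * z 0) * Real.exp (-(((k - 2 : ℕ) : ℝ) * z 0 * p)) =
        Real.exp (ex k m * z 0) := by
      rw [← Real.exp_add]
      congr 1
      rw [Nat.cast_sub (by omega), hp, ex]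
      push_cast
      field_simp
      ring
    rw [← e]
    ring
  obtain ⟨hYi, hYe⟩ := hY k m hk (fun z => (hfun z : ℂ)) (by fun_prop)
  have hIz : Integrable (fun z : Fin (m + 1) → ℝ => Real.exp ((k : ℝ) * z 0) * hfun z) :=
    (hI.const_mul ((s⁻¹) ^ p)).congr (Eventually.of_forall fun z => (hexp z).symm)
  have hIc : Integrable (fun z : Fin (m + 1) → ℝ =>
      (Real.exp ((k : ℝ) * z 0) : ℂ) * (hfun z : ℂ)) := by
    have := hIz.ofReal (𝕜 := ℂ)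
    exact this.congr (Eventually.of_forall fun z => Complex.ofReal_mul _ _)
  have hIx : Integrable (fun x : Sp k m => hfun (Fin.cons (Real.log ‖x.1‖) x.2)) := by
    have := (hYi.2 hIc).re
    refine this.congr (Eventually.of_forall fun z => ?_)
    simp
  refine ⟨hIx.congr hae.symm, ?_⟩
  have hval : ∫ x : Sp k m, hfun (Fin.cons (Real.log ‖x.1‖) x.2) =
      s * ((s⁻¹) ^ p * ∫ z, Real.exp (ex k m * z 0) * D z ^ p) := by
    have e1 : ∫ x : Sp k m, ((hfun (Fin.cons (Real.log ‖x.1‖) x.2) : ℝ) : ℂ) =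
        ((∫ x : Sp k m, hfun (Fin.cons (Real.log ‖x.1‖) x.2) : ℝ) : ℂ) := integral_ofReal
    have e2 : ∫ z : Fin (m + 1) → ℝ, (Real.exp ((k : ℝ) * z 0) : ℂ) * (hfun z : ℂ) =
        ((∫ z : Fin (m + 1) → ℝ, Real.exp ((k : ℝ) * z 0) * hfun z : ℝ) : ℂ) :=
      (integral_congr_ae (Eventually.of_forall fun z => (Complex.ofReal_mul _ _).symm)).trans
        integral_ofReal
    rw [e1, e2, ← hs] at hYe
    rw [← integral_const_mul, ← integral_congr_ae (Eventually.of_forall hexp)]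
    exact_mod_cast hYe
  rw [integral_congr_ae hae, hval, hC k m hk, ← hs]
  set J := ∫ z, Real.exp (ex k m * z 0) * D z ^ p with hJ
  have e1 : s ^ (2 / ((k : ℝ) + m)) * (s * (s⁻¹) ^ p) = 1 := by
    rw [Real.inv_rpow hs0.le, hp, Real.rpow_add hs0, Real.rpow_one]
    have := (Real.rpow_pos_of_pos hs0 (2 / ((k : ℝ) + m))).ne'
    field_simp
  have e2 : s ^ (2 / ((k : ℝ) + m)) * LTd.bco ((m : ℝ) / 2) ((k : ℝ) / 2 + 1) (Kp k) *
      (s * ((s⁻¹) ^ p * J)) = (s ^ (2 / ((k : ℝ) + m)) * (s * (s⁻¹) ^ p)) *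
      (LTd.bco ((m : ℝ) / 2) ((k : ℝ) / 2 + 1) (Kp k) * J) := by
    ring
  rw [e2, e1, one_mul]
  exact hle.trans (Finset.sum_le_sum fun l hl => (hφ l hl).2.2.2)

end Pool.Agent.Run7.H894.LK
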